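import Pool.Agent.K3h2.LT.Stm3

/-!
# Limit points of the orbit are fixed points, `d = 3` (adapted from helper33's `t_FIX`)
-/

set_option autoImplicit false

open Filter Topology

namespace Pool.Agent.K3h77.LT

open Pool.Agent.K3h2.LT

lemma hasSum_limit (hU : S_UNI) {C : ℝ} {f : ℕ → ℤ → ℝ} {x : ℤ → ℝ}
    (hf : ∀ n k, 0 ≤ f n k ∧ f n k ≤ C * (1 / 2) ^ k.natAbs)
    (hx : ∀ k, Tendsto (fun n => f n k) atTop (𝓝 (x k)))
    (h3 : ∀ n, HasSum (fun k => f n k ^ 4) 1) : HasSum (fun k => x k ^ 4) 1 := by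
  obtain ⟨h1, h2⟩ := (hU C f x hf hx).2 4 (by norm_num)
  have h4 : (fun n => ∑' k, f n k ^ 4) = fun _ => (1 : ℝ) := by
    funext n
    exact (h3 n).tsum_eq
  rw [h4] at h2
  have h5 : ∑' k, x k ^ 4 = 1 := tendsto_nhds_unique h2 tendsto_const_nhds
  rw [← h5]
  exact h1.hasSum

lemma tendsto_of_quart {f : ℕ → ℝ} {E : ℕ → ℝ} (h : ∀ n, |f n| ^ 4 ≤ E n)
    (hE : Tendsto E atTop (𝓝 0)) : Tendsto f atTop (𝓝 0) := by
  rw [Metric.tendsto_atTop] at hE ⊢
  intro ε hε
  obtain ⟨N, hN⟩ := hE (ε ^ 4) (pow_pos hε 4)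
  refine ⟨N, fun n hn => ?_⟩
  have h1 := hN n hn
  rw [Real.dist_eq, sub_zero] at h1 ⊢
  have h2 : |f n| ^ 4 < ε ^ 4 := ((h n).trans (le_abs_self _)).trans_lt h1
  exact lt_of_pow_lt_pow_left₀ 4 hε.le h2

lemma two_steps (hE : S3_ENE) {C L : ℝ} {s : ℕ → ℤ → ℝ} {lam : ℕ → ℝ} (h : Orb3 C L s lam)
    (k : ℤ) : Tendsto (fun n => s (n + 2) k - s n k) atTop (𝓝 0) := by
  have hlim1 : Tendsto (fun n => lam (n + 1)) atTop (𝓝 L) := h.lim.comp (tendsto_add_atTop_nat 1)
  have hEn : Tendsto (fun n => 4 * (lam (n + 1) - lam n) / lam (n + 1)) atTop (𝓝 0) := by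
    have h1 : Tendsto (fun n => 4 * (lam (n + 1) - lam n) / lam (n + 1)) atTop
        (𝓝 (4 * (L - L) / L)) :=
      ((hlim1.sub h.lim).const_mul 4).div hlim1 h.Lpos.ne'
    rwa [sub_self, mul_zero, zero_div] at h1
  refine tendsto_of_quart (fun n => ?_) hEn
  have h1 := (hE s lam h.toOrb03 n).2.2
  have hnn : ∀ j, 0 ≤ (s (n + 2) j - s n j) ^ 2 *
      (s (n + 2) j ^ 2 + 2 * s (n + 2) j * s n j + 3 * s n j ^ 2) := by
    intro j
    have e1 := h.nonneg (n + 2) j
    have e2 := h.nonneg n j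
    positivity
  have h2 : (s (n + 2) k - s n k) ^ 2 *
      (s (n + 2) k ^ 2 + 2 * s (n + 2) k * s n k + 3 * s n k ^ 2) ≤
      4 * (lam (n + 1) - lam n) / lam (n + 1) := le_hasSum h1 k fun j _ => hnn j
  refine le_trans ?_ h2
  have e1 := h.nonneg (n + 2) k
  have e2 := h.nonneg n k
  have h3 : (s (n + 2) k - s n k) ^ 2 ≤
      s (n + 2) k ^ 2 + 2 * s (n + 2) k * s n k + 3 * s n k ^ 2 := by
    nlinarith [mul_nonneg e1 e2, sq_nonneg (s n k)]
  have h4 : |s (n + 2) k - s n k| ^ 4 =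
      (s (n + 2) k - s n k) ^ 2 * (s (n + 2) k - s n k) ^ 2 := by
    rw [← sq_abs (s (n + 2) k - s n k)]
    ring
  rw [h4]
  exact mul_le_mul_of_nonneg_left h3 (sq_nonneg _)

/-- FIX3. -/
theorem t_FIX3 : S3_CYC → S_UNI → S_POS → S3_ENE → S3_FIX := by
  intro hC hU hP hE
  refine ⟨?_, ?_, ?_⟩
  · intro C L s lam h φ x hφ hx
    have hL := h.Lpos
    have hstep : ∀ n k, s (n + 1) k = (s n (k - 1) ^ 3 + s n k ^ 3 + s n (k + 1) ^ 3) / lam n := by
      intro n k
      rw [eq_div_iff (h.pos n).ne', mul_comm]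
      exact h.step n k
    have hlim0 : Tendsto (fun j => lam (φ j)) atTop (𝓝 L) := h.lim.comp hφ
    have hφ1 : Tendsto (fun j => φ j + 1) atTop atTop := (tendsto_add_atTop_nat 1).comp hφ
    have hlim1 : Tendsto (fun j => lam (φ j + 1)) atTop (𝓝 L) := h.lim.comp hφ1
    set y : ℤ → ℝ := fun k => (x (k - 1) ^ 3 + x k ^ 3 + x (k + 1) ^ 3) / L with hy
    have hy1 : ∀ k, Tendsto (fun j => s (φ j + 1) k) atTop (𝓝 (y k)) := by
      intro k
      have e1 : (fun j => s (φ j + 1) k) = fun j =>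
          (s (φ j) (k - 1) ^ 3 + s (φ j) k ^ 3 + s (φ j) (k + 1) ^ 3) / lam (φ j) := by
        funext j
        exact hstep _ _
      rw [e1]
      exact ((((hx (k - 1)).pow 3).add ((hx k).pow 3)).add ((hx (k + 1)).pow 3)).div hlim0 hL.ne'
    have hy2 : ∀ k, Tendsto (fun j => s (φ j + 2) k) atTop
        (𝓝 ((y (k - 1) ^ 3 + y k ^ 3 + y (k + 1) ^ 3) / L)) := by
      intro k
      have e1 : (fun j => s (φ j + 2) k) = fun j =>
          (s (φ j + 1) (k - 1) ^ 3 + s (φ j + 1) k ^ 3 + s (φ j + 1) (k + 1) ^ 3) /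
            lam (φ j + 1) := by
        funext j
        exact hstep _ _
      rw [e1]
      exact ((((hy1 (k - 1)).pow 3).add ((hy1 k).pow 3)).add ((hy1 (k + 1)).pow 3)).div hlim1 hL.ne'
    have hxy : ∀ k, (y (k - 1) ^ 3 + y k ^ 3 + y (k + 1) ^ 3) / L = x k := by
      intro k
      have e1 := (hy2 k).sub (hx k)
      have e2 : Tendsto (fun j => s (φ j + 2) k - s (φ j) k) atTop (𝓝 0) :=
        (two_steps hE h k).comp hφ
      exact sub_eq_zero.1 (tendsto_nhds_unique e1 e2)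
    have hx0 : ∀ k, 0 ≤ x k := fun k => ge_of_tendsto' (hx k) fun j => h.nonneg _ _
    have hy0 : ∀ k, 0 ≤ y k := fun k => ge_of_tendsto' (hy1 k) fun j => h.nonneg _ _
    have hxd : ∀ k, x k ≤ C * (1 / 2) ^ k.natAbs := fun k =>
      le_of_tendsto' (hx k) fun j => h.dom _ _
    have hyd : ∀ k, y k ≤ C * (1 / 2) ^ k.natAbs := fun k =>
      le_of_tendsto' (hy1 k) fun j => h.dom _ _
    have hsum : HasSum (fun k => x k ^ 4) 1 :=
      hasSum_limit hU (f := fun j => s (φ j)) (fun j k => ⟨h.nonneg _ _, h.dom _ _⟩) hx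
        fun j => h.quart _
    obtain ⟨h1, h2⟩ := hC C L x y hL hx0 hy0 hxd hyd hsum
      (fun k => by rw [hy]; beta_reduce; rw [mul_div_cancel₀ _ hL.ne'])
      (fun k => by rw [← hxy k, mul_div_cancel₀ _ hL.ne'])
    refine ⟨h1, fun k => ?_⟩
    have h3 := hy1 k
    rwa [← h2] at h3
  · intro C L y x hL hC1 hy hx
    have hx0 : ∀ k, 0 ≤ x k := fun k => ge_of_tendsto' (hx k) fun j => ((hy j).pos k).le
    have hxd : ∀ k, x k ≤ C * (1 / 2) ^ k.natAbs := fun k =>
      le_of_tendsto' (hx k) fun j => (hy j).dom k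
    have hsum : HasSum (fun k => x k ^ 4) 1 :=
      hasSum_limit hU (f := y) (fun j k => ⟨((hy j).pos k).le, (hy j).dom k⟩) hx
        fun j => (hy j).quart
    have heq : ∀ k, L * x k = x (k - 1) ^ 3 + x k ^ 3 + x (k + 1) ^ 3 := by
      intro k
      have e1 : Tendsto (fun j => L * y j k) atTop (𝓝 (L * x k)) := (hx k).const_mul L
      have e2 : Tendsto (fun j => y j (k - 1) ^ 3 + y j k ^ 3 + y j (k + 1) ^ 3) atTop
          (𝓝 (x (k - 1) ^ 3 + x k ^ 3 + x (k + 1) ^ 3)) :=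
        (((hx (k - 1)).pow 3).add ((hx k).pow 3)).add ((hx (k + 1)).pow 3)
      have e3 : (fun j => L * y j k) = fun j => y j (k - 1) ^ 3 + y j k ^ 3 + y j (k + 1) ^ 3 := by
        funext j
        exact (hy j).eq k
      rw [e3] at e1
      exact tendsto_nhds_unique e1 e2
    exact (hC C L x x hL hx0 hx0 hxd hxd hsum heq heq).1
  · intro C L x x' M hL hC1 hM h h' hMM
    have hq : ∀ k : ℤ, 0 ≤ (1 / 2 : ℝ) ^ k.natAbs ∧ (1 / 2 : ℝ) ^ k.natAbs ≤ 1 := fun k =>
      ⟨by positivity, pow_le_one₀ (by norm_num) (by norm_num)⟩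
    have hb : ∀ k : ℤ, C * (1 / 2 : ℝ) ^ k.natAbs ≤ C := by
      intro k
      have e1 := (hq k).2
      nlinarith
    have key := hP L C (fun k => x k ^ 2 + x k * x' k + x' k ^ 2) (fun k => x k - x' k) M hL
      (fun k => by
        have e1 := h.pos k
        have e2 := h'.pos k
        positivity)
      (fun k hk => by
        refine le_trans ?_ (hM k hk)
        have e0 := h.pos k
        have e0' := h'.pos k
        have e2 := h.dom k
        have e3 := h'.dom k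
        obtain ⟨e4, e5⟩ := hq k
        set t : ℝ := C * (1 / 2) ^ k.natAbs with ht
        have e6 : x k ^ 2 ≤ t ^ 2 := pow_le_pow_left₀ e0.le e2 2
        have e7 : x' k ^ 2 ≤ t ^ 2 := pow_le_pow_left₀ e0'.le e3 2
        have e8 : x k * x' k ≤ t * t := mul_le_mul e2 e3 e0'.le (e0.le.trans e2)
        have e9 : t ^ 2 ≤ C ^ 2 * (1 / 2) ^ k.natAbs := by
          rw [ht, mul_pow]
          refine mul_le_mul_of_nonneg_left ?_ (sq_nonneg C)
          nlinarith
        nlinarith)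
      (fun k => by
        have e1 := (h.dom k).trans (hb k)
        have e2 := (h'.dom k).trans (hb k)
        have e3 := h.pos k
        have e4 := h'.pos k
        rw [abs_le]
        constructor <;> linarith)
      (fun k => by
        have e1 := h.eq k
        have e2 := h'.eq k
        linear_combination e1 - e2)
      (by
        rw [hMM, sub_self])
    funext k
    exact sub_eq_zero.1 (key k)

end Pool.Agent.K3h77.LT
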