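import Pool.Agent.K3h53.LT.Stm

/-!
# Brick HARM: there are many homogeneous harmonic polynomials
-/

open MeasureTheory Filter Topology Set
open scoped ENNReal NNReal ContDiff

namespace Pool.Agent.K3h77.LT.Harm

open Pool.Agent.Helper41.CE Pool.Agent.K3h53.LT

open MvPolynomial

variable {d : ℕ}

/-- finrank of the space of homogeneous polynomials -/
theorem finrank_hom (d n : ℕ) :
    Module.finrank ℂ (homogeneousSubmodule (Fin d) ℂ n) = (d + n - 1).choose n := by
  set s : Set (Fin d →₀ ℕ) := {α | α.degree = n} with hs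
  have h1 : homogeneousSubmodule (Fin d) ℂ n = restrictSupport ℂ s :=
    homogeneousSubmodule_eq_finsupp_supported (Fin d) ℂ n
  rw [h1, Module.finrank_eq_nat_card_basis (basisRestrictSupport ℂ s)]
  have h2 : s = ↑((Finset.univ : Finset (Fin d)).finsuppAntidiag n) := by
    ext α
    simp [hs, Finsupp.degree_eq_sum]
  rw [h2, Nat.card_coe_set_eq, Set.ncard_coe_finset, Finset.card_finsuppAntidiag_nat_eq_choose]
  simp

instance (d n : ℕ) : FiniteDimensional ℂ (homogeneousSubmodule (Fin d) ℂ n) :=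
  Module.Finite.iff_fg.mpr (homogeneousSubmodule_fg (Fin d) ℂ n)

/-- Laplacian on polynomials -/
noncomputable def Lap (d : ℕ) : MvPolynomial (Fin d) ℂ →ₗ[ℂ] MvPolynomial (Fin d) ℂ :=
  ∑ i, (pderiv i).toLinearMap ∘ₗ (pderiv i).toLinearMap

theorem Lap_apply (p : MvPolynomial (Fin d) ℂ) : Lap d p = ∑ i, pderiv i (pderiv i p) := by
  simp [Lap]

theorem Lap_hom {n : ℕ} {p : MvPolynomial (Fin d) ℂ} (hp : p ∈ homogeneousSubmodule (Fin d) ℂ n) :
    Lap d p ∈ homogeneousSubmodule (Fin d) ℂ (n - 1 - 1) := by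
  rw [Lap_apply]
  exact Submodule.sum_mem _ fun i _ => IsHomogeneous.pderiv (IsHomogeneous.pderiv hp)

/-- evaluation of a polynomial on the Euclidean space -/
noncomputable def ev (p : MvPolynomial (Fin d) ℂ) (x : E d) : ℂ := eval (fun i => ((x i : ℝ) : ℂ)) p

theorem contDiff_coord (j : Fin d) : ContDiff ℝ ∞ (fun x : E d => ((x j : ℝ) : ℂ)) := by
  have h := (Complex.ofRealCLM.comp (EuclideanSpace.proj j : E d →L[ℝ] ℝ)).contDiff (n := ∞)
  exact h

theorem ev_smooth (p : MvPolynomial (Fin d) ℂ) : ContDiff ℝ ∞ (ev p) := by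
  induction p using MvPolynomial.induction_on with
  | C a =>
    have : ev (C a) = fun _ : E d => a := by funext x; simp [ev]
    rw [this]; exact contDiff_const
  | add p q hp hq =>
    have : ev (p + q) = fun x : E d => ev p x + ev q x := by funext x; simp [ev]
    rw [this]; exact hp.add hq
  | mul_X p j hp =>
    have : ev (p * X j) = fun x : E d => ev p x * ((x j : ℝ) : ℂ) := by funext x; simp [ev]
    rw [this]; exact hp.mul (contDiff_coord j)

theorem fderiv_coord (j : Fin d) (x v : E d) :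
    fderiv ℝ (fun x : E d => ((x j : ℝ) : ℂ)) x v = ((v j : ℝ) : ℂ) := by
  have h := (Complex.ofRealCLM.comp (EuclideanSpace.proj j : E d →L[ℝ] ℝ)).hasFDerivAt (x := x)
  have h2 : HasFDerivAt (fun x : E d => ((x j : ℝ) : ℂ))
    (Complex.ofRealCLM.comp (EuclideanSpace.proj j : E d →L[ℝ] ℝ)) x := h
  rw [h2.fderiv]; simp

theorem pd_ev (i : Fin d) (p : MvPolynomial (Fin d) ℂ) : pd i (ev p) = ev (pderiv i p) := by
  funext x
  unfold pd
  induction p using MvPolynomial.induction_on with
  | C a =>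
    have : ev (C a) = fun _ : E d => a := by funext x; simp [ev]
    rw [this]; simp [ev]
  | add p q hp hq =>
    have h1 : ev (p + q) = fun x : E d => ev p x + ev q x := by funext x; simp [ev]
    have h2 := (ev_smooth p).differentiable (by simp) x
    have h3 := (ev_smooth q).differentiable (by simp) x
    rw [h1, fderiv_fun_add h2 h3, add_apply, hp, hq]
    simp [ev]
  | mul_X p j hp =>
    have h1 : ev (p * X j) = fun x : E d => ev p x * ((x j : ℝ) : ℂ) := by funext x; simp [ev]
    have h2 := (ev_smooth p).differentiable (by simp) x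
    have h3 := (contDiff_coord j).differentiable (by simp) x
    rw [h1, fderiv_fun_mul h2 h3]
    simp only [add_apply, smul_apply, hp, fderiv_coord]
    rw [Derivation.leibniz, pderiv_X]
    by_cases hij : i = j
    · subst hij
      simp [ev]
    · have hji : j ≠ i := fun h => hij h.symm
      simp [ev, hji]

theorem ev_hom {ℓ : ℕ} {p : MvPolynomial (Fin d) ℂ} (hp : p.IsHomogeneous ℓ) (t : ℝ) (x : E d) :
    ev p (t • x) = (t : ℂ) ^ ℓ * ev p x := by
  unfold ev
  rw [eval_eq', eval_eq', Finset.mul_sum]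
  apply Finset.sum_congr rfl
  intro α hα
  have h1 : ∑ i, α i = ℓ := by
    have := hp (mem_support_iff.mp hα)
    rw [← this]
    simp [Finsupp.weight_apply, Finsupp.sum_fintype]
  have h2 : ∏ i, ((((t • x) i : ℝ)) : ℂ) ^ α i = (t : ℂ) ^ ℓ * ∏ i, ((x i : ℝ) : ℂ) ^ α i := by
    rw [← h1, ← Finset.prod_pow_eq_pow_sum, ← Finset.prod_mul_distrib]
    apply Finset.prod_congr rfl
    intro i _
    rw [← mul_pow]
    simp
  rw [h2]; ring

/-- evaluation as a linear map -/
noncomputable def Phi (d : ℕ) : MvPolynomial (Fin d) ℂ →ₗ[ℂ] (E d → ℂ) where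
  toFun := ev
  map_add' p q := by funext x; simp [ev]
  map_smul' c p := by funext x; simp [ev]

theorem Phi_inj : LinearMap.ker (Phi d) = ⊥ := by
  rw [LinearMap.ker_eq_bot']
  intro p hp
  apply MvPolynomial.funext_set (s := fun _ : Fin d => Set.range (fun r : ℝ => (r : ℂ)))
  · intro i
    exact Set.infinite_range_of_injective Complex.ofReal_injective
  · intro y hy
    have hy' : ∀ i, ∃ r : ℝ, (r : ℂ) = y i := by
      intro i
      exact hy i (Set.mem_univ i)
    choose z hz using hy'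
    have h1 : ev p (WithLp.toLp 2 z) = 0 := congrFun hp _
    have h2 : y = fun i => (((WithLp.toLp 2 z : E d) i : ℝ) : ℂ) := by
      funext i; simp [hz i]
    rw [h2]
    simpa [ev] using h1

/-- a basis of the kernel -/
theorem exists_ker {V W : Type*} [AddCommGroup V] [Module ℂ V] [AddCommGroup W] [Module ℂ W]
    [FiniteDimensional ℂ V] (L : V →ₗ[ℂ] W) :
    ∃ (N : ℕ) (b : Fin N → V),
      N = Module.finrank ℂ V - Module.finrank ℂ (LinearMap.range L) ∧
      (∀ j, L (b j) = 0) ∧ LinearIndependent ℂ b := by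
  have h := LinearMap.finrank_range_add_finrank_ker L
  have h1 : Module.finrank ℂ (LinearMap.ker L) =
    Module.finrank ℂ V - Module.finrank ℂ (LinearMap.range L) := by omega
  let B := Module.finBasisOfFinrankEq ℂ (LinearMap.ker L) h1
  refine ⟨_, fun j => (B j : V), rfl, fun j => (B j).2, ?_⟩
  exact B.linearIndependent.map' _ (Submodule.ker_subtype _)

theorem t_harm : St_harm := by
  intro d ℓ hd
  by_cases hℓ : ℓ = 0
  · subst hℓ
    refine ⟨1, fun _ _ => 1, ?_, ?_, ?_⟩
    · have h1 : ((0:ℕ):ℝ) ^ (d - 2) ≤ 1 := by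
        apply pow_le_one₀ <;> simp
      have h2 : (1:ℝ) ≤ (Nat.factorial (d - 2) : ℝ) := by
        exact_mod_cast Nat.factorial_pos _
      rw [div_le_iff₀ (by linarith)]
      push_cast at h1 ⊢
      linarith
    · intro j
      refine ⟨contDiff_const, fun t x => by simp, fun x => ?_⟩
      apply Finset.sum_eq_zero
      intro i _
      have h1 : pd i (fun _ : E d => (1:ℂ)) = fun _ => 0 := by funext y; simp [pd]
      rw [h1]
      simp [pd]
    · rw [Fintype.linearIndependent_iff]
      intro g hg j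
      have := congrFun hg 0
      simp at this
      rwa [Subsingleton.elim j 0]
  · have hres : ∀ p ∈ homogeneousSubmodule (Fin d) ℂ ℓ,
        Lap d p ∈ homogeneousSubmodule (Fin d) ℂ (ℓ - 1 - 1) := fun p hp => Lap_hom hp
    set L := (Lap d).restrict hres with hL
    obtain ⟨N, b, hN, hb0, hb⟩ := exists_ker L
    rw [finrank_hom] at hN
    have hle : Module.finrank ℂ (LinearMap.range L) ≤
        (d + (ℓ - 1 - 1) - 1).choose (ℓ - 1 - 1) := by
      rw [← finrank_hom]
      exact Submodule.finrank_le _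
    have hNge : (d + ℓ - 2).choose (d - 2) ≤ N := by
      obtain ⟨d', rfl⟩ : ∃ d', d = d' + 2 := ⟨d - 2, by omega⟩
      obtain ⟨ℓ', rfl⟩ : ∃ ℓ', ℓ = ℓ' + 1 := ⟨ℓ - 1, by omega⟩
      have e1 : (d' + 2 + (ℓ' + 1) - 1).choose (ℓ' + 1) = (d' + ℓ' + 2).choose (d' + 1) := by
        rw [show d' + 2 + (ℓ' + 1) - 1 = d' + ℓ' + 2 by omega]
        rw [← Nat.choose_symm_of_eq_add (n := d' + ℓ' + 2) (a := d' + 1) (b := ℓ' + 1) (by ring)]
      have e2 : (d' + 2 + (ℓ' + 1 - 1 - 1) - 1).choose (ℓ' + 1 - 1 - 1) ≤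
          (d' + ℓ' + 1).choose (d' + 1) := by
        rw [show d' + 2 + (ℓ' + 1 - 1 - 1) - 1 = d' + 1 + (ℓ' - 1) by omega,
          show ℓ' + 1 - 1 - 1 = ℓ' - 1 by omega]
        rw [← Nat.choose_symm_of_eq_add (n := d' + 1 + (ℓ' - 1)) (a := d' + 1) (b := ℓ' - 1)
          (by ring)]
        exact Nat.choose_le_choose _ (by omega)
      have e3 : (d' + ℓ' + 2).choose (d' + 1) =
          (d' + ℓ' + 1).choose d' + (d' + ℓ' + 1).choose (d' + 1) := by
        rw [show d' + ℓ' + 2 = (d' + ℓ' + 1) + 1 by ring, Nat.choose_succ_succ]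
      rw [show d' + 2 + (ℓ' + 1) - 2 = d' + ℓ' + 1 by omega, show d' + 2 - 2 = d' by omega]
      rw [e1, e3] at hN
      omega
    refine ⟨N, fun j x => ev (b j).1 x, ?_, ?_, ?_⟩
    · have h1 := Nat.pow_le_choose (α := ℝ) (d - 2) (d + ℓ - 2)
      have h2 : (((d + ℓ - 2).choose (d - 2) : ℕ) : ℝ) ≤ N := by exact_mod_cast hNge
      have h3 : (ℓ : ℝ) ^ (d - 2) / (Nat.factorial (d - 2) : ℝ) ≤
          (((d + ℓ - 2 + 1 - (d - 2) : ℕ)) ^ (d - 2) : ℝ) / (Nat.factorial (d - 2) : ℝ) := by
        gcongr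
        omega
      exact h3.trans (h1.trans h2)
    · intro j
      have hq1 : ((b j).1).IsHomogeneous ℓ := (b j).2
      have hq2 : Lap d (b j).1 = 0 := congrArg Subtype.val (hb0 j)
      refine ⟨ev_smooth _, fun t x => ev_hom hq1 t x, fun x => ?_⟩
      have h3 : ∀ i, pd i (pd i (fun x => ev (b j).1 x)) x = ev (pderiv i (pderiv i (b j).1)) x := by
        intro i
        have : (fun x => ev (b j).1 x) = ev (b j).1 := rfl
        rw [this, pd_ev, pd_ev]
      simp_rw [h3]
      have h4 : ∑ i, ev (pderiv i (pderiv i (b j).1)) x = ev (Lap d (b j).1) x := by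
        rw [Lap_apply]
        simp [ev]
      rw [h4, hq2]; simp [ev]
    · have hli3 := hb.map' (homogeneousSubmodule (Fin d) ℂ ℓ).subtype (Submodule.ker_subtype _)
      have hli4 := hli3.map' (Phi d) Phi_inj
      exact hli4

end Pool.Agent.K3h77.LT.Harm
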