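import Pool.Agent.K3h53.LT.Stm

/-!
# Brick INDEP: harmonic homogeneous functions of different degrees are independent on a sphere
-/

open MeasureTheory Filter Topology Set
open scoped ENNReal NNReal ContDiff

namespace Pool.Agent.K3h77.LT

open Pool.Agent.Helper41.CE Pool.Agent.K3h53.LT

variable {d : ℕ}

theorem pd_smooth {φ : E d → ℂ} (h : ContDiff ℝ ∞ φ) (i : Fin d) : ContDiff ℝ ∞ (pd i φ) := by
  unfold pd
  exact (h.fderiv_right (m := ∞) (by simp)).clm_apply contDiff_const

theorem pd_line {φ : E d → ℂ} (h : ContDiff ℝ ∞ φ) (i : Fin d) (x : E d) (t : ℝ) :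
    HasDerivAt (fun t : ℝ => φ (x + t • EuclideanSpace.single i (1:ℝ)))
      (pd i φ (x + t • EuclideanSpace.single i (1:ℝ))) t := by
  have h1 : HasFDerivAt φ (fderiv ℝ φ (x + t • EuclideanSpace.single i (1:ℝ)))
      (x + t • EuclideanSpace.single i (1:ℝ)) :=
    (h.differentiable (by simp) _).hasFDerivAt
  have h2 : HasDerivAt (fun t : ℝ => x + t • EuclideanSpace.single i (1:ℝ))
      (EuclideanSpace.single i (1:ℝ)) t := by
    simpa using ((hasDerivAt_id t).smul_const (EuclideanSpace.single i (1:ℝ) : E d)).const_add x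
  exact h1.comp_hasDerivAt t h2

/-- second derivative at a local maximum -/
theorem second_le {f f1 : ℝ → ℝ} {a : ℝ} (h1 : ∀ t, HasDerivAt f (f1 t) t)
    (h2 : HasDerivAt f1 a 0) (hm : IsLocalMax f 0) : a ≤ 0 := by
  by_contra hc
  push Not at hc
  have hf1 : deriv f = f1 := funext fun t => (h1 t).deriv
  have h0 : f1 0 = 0 := by
    have := hm.deriv_eq_zero
    rwa [hf1] at this
  have hmin : IsLocalMin f 0 := by
    apply isLocalMin_of_deriv_deriv_pos
    · rw [hf1, h2.deriv]; exact hc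
    · rw [hf1]; exact h0
    · exact (h1 0).continuousAt
  -- f is locally constant near 0
  have hEq : ∀ᶠ t in 𝓝 (0:ℝ), f t = f 0 := by
    filter_upwards [hm, hmin] with t ht1 ht2
    exact le_antisymm ht1 ht2
  have hEq2 : f =ᶠ[𝓝 0] fun _ => f 0 := hEq
  have h3 : deriv f =ᶠ[𝓝 0] deriv (fun _ => f 0) := hEq2.deriv
  have h4 : f1 =ᶠ[𝓝 0] fun _ => 0 := by
    rw [hf1] at h3
    simpa using h3
  have h5 : a = 0 := by
    have := h4.deriv_eq
    rw [h2.deriv] at this
    simpa using this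
  linarith


theorem norm_line (x : E d) (i : Fin d) (t : ℝ) :
    ‖x + t • (EuclideanSpace.single i (1:ℝ) : E d)‖ ^ 2 = ‖x‖ ^ 2 + 2 * t * x i + t ^ 2 := by
  rw [norm_add_sq_real, norm_smul, inner_smul_right]
  rw [EuclideanSpace.inner_single_right]
  simp
  ring

theorem maxp (hd : 1 ≤ d) {G : E d → ℂ} (hG : ContDiff ℝ ∞ G)
    (hlap : ∀ x, ∑ i, pd i (pd i G) x = 0) {r : ℝ} (hr : 0 < r)
    (hb : ∀ x : E d, ‖x‖ = r → G x = 0) : ∀ x : E d, ‖x‖ ≤ r → G x = 0 := by
  intro x0 hx0
  by_contra hne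
  set c : ℂ := (starRingEnd ℂ) (G x0) with hc
  have hu0 : (c * G x0).re = ‖G x0‖ ^ 2 := by
    rw [hc, ← Complex.normSq_eq_conj_mul_self, Complex.ofReal_re, Complex.normSq_eq_norm_sq]
  have hpos : 0 < (c * G x0).re := by
    rw [hu0]; positivity
  set ε : ℝ := (c * G x0).re / (2 * r ^ 2) with hε
  have hεpos : 0 < ε := by positivity
  have hε2 : ε * r ^ 2 < (c * G x0).re := by
    rw [hε]
    have : (c * G x0).re / (2 * r ^ 2) * r ^ 2 = (c * G x0).re / 2 := by field_simp
    rw [this]; linarith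
  set w : E d → ℝ := fun x => (c * G x).re + ε * ‖x‖ ^ 2 with hw
  have hwc : Continuous w := by
    have := hG.continuous
    fun_prop
  obtain ⟨x1, hx1m, hx1⟩ := (isCompact_closedBall (0 : E d) r).exists_isMaxOn
    ⟨x0, by simpa using hx0⟩ hwc.continuousOn
  have hx1n : ‖x1‖ ≤ r := by simpa using hx1m
  have hwx : w x0 ≤ w x1 := hx1 (by simpa using hx0)
  have hlt : ‖x1‖ < r := by
    rcases lt_or_eq_of_le hx1n with h | h
    · exact h
    · exfalso
      have h1 : w x1 = ε * r ^ 2 := by simp [hw, hb x1 h, h]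
      have h2 : (c * G x0).re ≤ w x0 := by
        simp only [hw]
        have : 0 ≤ ε * ‖x0‖ ^ 2 := by positivity
        linarith
      linarith
  have hloc : ∀ᶠ x in 𝓝 x1, w x ≤ w x1 := by
    have : ∀ᶠ x : E d in 𝓝 x1, ‖x‖ < r := continuous_norm.continuousAt.eventually_lt
      continuousAt_const hlt
    filter_upwards [this] with x hx
    exact hx1 (by simpa using hx.le)
  have hi : ∀ i : Fin d, (c * pd i (pd i G) x1).re + 2 * ε ≤ 0 := by
    intro i
    have hx1t : x1 + (0:ℝ) • (EuclideanSpace.single i (1:ℝ) : E d) = x1 := by simp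
    apply second_le (f := fun t => w (x1 + t • EuclideanSpace.single i (1:ℝ)))
      (f1 := fun t => (c * pd i G (x1 + t • EuclideanSpace.single i (1:ℝ))).re +
        ε * (2 * x1 i + 2 * t))
    · intro t
      have h1 := ((pd_line hG i x1 t).const_mul c)
      have h2 := Complex.reCLM.hasFDerivAt.comp_hasDerivAt t h1
      have h3 : HasDerivAt (fun t : ℝ => ε * ‖x1 + t • (EuclideanSpace.single i (1:ℝ) : E d)‖ ^ 2)
          (ε * (2 * x1 i + 2 * t)) t := by
        have h4 : HasDerivAt (fun t : ℝ => ε * (‖x1‖ ^ 2 + 2 * t * x1 i + t ^ 2))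
            (ε * (2 * x1 i + 2 * t)) t := by
          apply HasDerivAt.const_mul
          have h5 : HasDerivAt (fun t : ℝ => ‖x1‖ ^ 2 + 2 * t * x1 i) (2 * x1 i) t := by
            have := (((hasDerivAt_id t).const_mul 2).mul_const (x1 i)).const_add (‖x1‖ ^ 2)
            simpa using this
          have h6 : HasDerivAt (fun t : ℝ => t ^ 2) (2 * t) t := by
            simpa using hasDerivAt_pow 2 t
          exact h5.add h6
        have : (fun t : ℝ => ε * ‖x1 + t • (EuclideanSpace.single i (1:ℝ) : E d)‖ ^ 2) =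
            fun t : ℝ => ε * (‖x1‖ ^ 2 + 2 * t * x1 i + t ^ 2) := by
          funext t; rw [norm_line]
        rw [this]; exact h4
      exact h2.add h3
    · have h1 := ((pd_line (pd_smooth hG i) i x1 0).const_mul c)
      have h2 := Complex.reCLM.hasFDerivAt.comp_hasDerivAt 0 h1
      rw [hx1t] at h2
      have h3 : HasDerivAt (fun t : ℝ => ε * (2 * x1 i + 2 * t)) (2 * ε) 0 := by
        have := (((hasDerivAt_id (0:ℝ)).const_mul 2).const_add (2 * x1 i)).const_mul ε
        simpa [mul_comm] using this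
      exact h2.add h3
    · have hcont : Tendsto (fun t : ℝ => x1 + t • (EuclideanSpace.single i (1:ℝ) : E d)) (𝓝 0)
          (𝓝 x1) := by
        have : Continuous (fun t : ℝ => x1 + t • (EuclideanSpace.single i (1:ℝ) : E d)) := by
          fun_prop
        have h := this.tendsto 0
        simpa using h
      have := hcont.eventually hloc
      filter_upwards [this] with t ht
      simpa using ht
  have hsum : ∑ i : Fin d, ((c * pd i (pd i G) x1).re + 2 * ε) ≤ 0 :=
    Finset.sum_nonpos fun i _ => hi i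
  rw [Finset.sum_add_distrib] at hsum
  have h0 : ∑ i : Fin d, (c * pd i (pd i G) x1).re = 0 := by
    rw [← Complex.re_sum, ← Finset.mul_sum, hlap x1]; simp
  rw [h0] at hsum
  simp only [Finset.sum_const, Finset.card_univ, Fintype.card_fin, nsmul_eq_mul, zero_add] at hsum
  have hd' : (1:ℝ) ≤ d := by exact_mod_cast hd
  nlinarith

theorem pd_sum (Λ : Finset ℕ) (H : ℕ → E d → ℂ) (hH : ∀ ℓ ∈ Λ, ContDiff ℝ ∞ (H ℓ)) (i : Fin d) :
    pd i (fun x => ∑ ℓ ∈ Λ, H ℓ x) = fun x => ∑ ℓ ∈ Λ, pd i (H ℓ) x := by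
  funext x
  unfold pd
  rw [fderiv_fun_sum (fun ℓ hℓ => (hH ℓ hℓ).differentiable (by simp) x)]
  simp

theorem t_indep : St_indep := by
  intro d Λ H r hd hr hHH hb
  set G : E d → ℂ := fun x => ∑ ℓ ∈ Λ, H ℓ x with hGdef
  have hG : ContDiff ℝ ∞ G := ContDiff.sum fun ℓ hℓ => (hHH ℓ hℓ).1
  have hlap : ∀ x, ∑ i, pd i (pd i G) x = 0 := by
    intro x
    have h1 : ∀ i, pd i (pd i G) x = ∑ ℓ ∈ Λ, pd i (pd i (H ℓ)) x := by
      intro i
      rw [hGdef, pd_sum Λ H (fun ℓ hℓ => (hHH ℓ hℓ).1) i,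
        pd_sum Λ (fun ℓ => pd i (H ℓ)) (fun ℓ hℓ => pd_smooth (hHH ℓ hℓ).1 i) i]
    simp_rw [h1]
    rw [Finset.sum_comm]
    exact Finset.sum_eq_zero fun ℓ hℓ => (hHH ℓ hℓ).2.2 x
  have hin := maxp hd hG hlap hr hb
  have hsph : ∀ x : E d, ‖x‖ = r → ∀ ℓ ∈ Λ, H ℓ x = 0 := by
    intro x hx ℓ hℓ
    set p : Polynomial ℂ := ∑ k ∈ Λ, Polynomial.C (H k x) * Polynomial.X ^ k with hp
    have hroot : ∀ t : ℝ, 0 ≤ t → t ≤ 1 → p.eval (t : ℂ) = 0 := by
      intro t ht0 ht1
      have h1 : G (t • x) = 0 := by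
        apply hin
        rw [norm_smul, hx, Real.norm_of_nonneg ht0]
        nlinarith
      have h2 : p.eval (t : ℂ) = G (t • x) := by
        rw [hp, Polynomial.eval_finset_sum, hGdef]
        apply Finset.sum_congr rfl
        intro k hk
        rw [(hHH k hk).2.1 t x]
        simp only [Polynomial.eval_mul, Polynomial.eval_C, Polynomial.eval_pow, Polynomial.eval_X]
        ring
      rw [h2, h1]
    have hp0 : p = 0 := by
      apply Polynomial.eq_zero_of_infinite_isRoot
      have : ((fun t : ℝ => (t : ℂ)) '' Set.Icc 0 1).Infinite := by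
        apply Set.Infinite.image
        · exact Complex.ofReal_injective.injOn
        · exact Set.Icc_infinite (by norm_num)
      apply this.mono
      rintro _ ⟨t, ht, rfl⟩
      exact hroot t ht.1 ht.2
    have hcoef : p.coeff ℓ = H ℓ x := by
      rw [hp, Polynomial.finsetSum_coeff]
      simp [Polynomial.coeff_C_mul, Polynomial.coeff_X_pow, hℓ]
    rw [← hcoef, hp0]; simp
  intro ℓ hℓ x
  by_cases hx : x = 0
  · subst hx
    have hi : 0 < d := hd
    set e : E d := r • EuclideanSpace.single ⟨0, hi⟩ (1:ℝ) with he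
    have hen : ‖e‖ = r := by
      rw [he, norm_smul]; simp [abs_of_pos hr]
    have h1 : H ℓ ((0:ℝ) • e) = ((0:ℝ):ℂ) ^ ℓ * H ℓ e := (hHH ℓ hℓ).2.1 0 e
    rw [zero_smul, hsph e hen ℓ hℓ, mul_zero] at h1
    exact h1
  · have hxn : 0 < ‖x‖ := norm_pos_iff.mpr hx
    have h1 : x = (‖x‖ / r) • ((r / ‖x‖) • x) := by
      rw [smul_smul]
      have : ‖x‖ / r * (r / ‖x‖) = 1 := by field_simp
      rw [this, one_smul]
    have h2 : ‖(r / ‖x‖) • x‖ = r := by
      rw [norm_smul, Real.norm_of_nonneg (by positivity)]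
      field_simp
    rw [h1, (hHH ℓ hℓ).2.1, hsph _ h2 ℓ hℓ, mul_zero]

end Pool.Agent.K3h77.LT
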